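import Pool.Agent.Run7.h386.PW.Main

/-! Sums `u + y` along dense sets of pairs `(u, y)`, `u` in a host `X · {∏ s : s ⊆ P}`, `y ∈ Y`. -/

set_option autoImplicit false

namespace Pool.Agent.Run7.h386.PW

open Finset
open scoped Classical

lemma star {e e₁ n k W₀ : ℝ} (he : 0 < e) (he1 : e ≤ 1) (he₁ : e₁ ≤ e / 8)
    (hk : k ≤ n / 8 + 1) (hn : 3 / e ≤ n) (hW : (2 : ℝ) ^ (n - k) ≤ W₀) :
    2 * 2 ^ k * W₀ ^ (1 - e) ≤ (W₀ * 2 ^ k) ^ (1 - e₁) := by
  have hW0 : 0 < W₀ := lt_of_lt_of_le (Real.rpow_pos_of_pos two_pos _) hW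
  have h2k : (0 : ℝ) < 2 ^ k := Real.rpow_pos_of_pos two_pos _
  have hn3 : 3 ≤ n * e := by rwa [div_le_iff₀ he] at hn
  have hn0 : 0 ≤ n := by
    by_contra h
    push Not at h
    nlinarith
  have h1 : (2 : ℝ) ^ (1 + k * e₁) ≤ W₀ ^ (e - e₁) := by
    calc (2 : ℝ) ^ (1 + k * e₁) ≤ 2 ^ ((n - k) * (e - e₁)) := by
          apply Real.rpow_le_rpow_of_exponent_le one_le_two
          have a1 : (7 * n / 8 - 1) * e ≤ (n - k) * e :=
            mul_le_mul_of_nonneg_right (by linarith) he.le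
          have a2 : n * e₁ ≤ n * (e / 8) := mul_le_mul_of_nonneg_left he₁ hn0
          nlinarith
      _ = (2 ^ (n - k)) ^ (e - e₁) := by rw [← Real.rpow_mul two_pos.le]
      _ ≤ _ := Real.rpow_le_rpow (Real.rpow_nonneg two_pos.le _) hW (by linarith)
  have h2 : W₀ ^ (1 - e₁) = W₀ ^ (1 - e) * W₀ ^ (e - e₁) := by
    rw [← Real.rpow_add hW0]
    congr 1
    ring
  have h3 : ((2 : ℝ) ^ k) ^ (1 - e₁) = 2 ^ k * 2 ^ (-(k * e₁)) := by
    rw [← Real.rpow_mul two_pos.le, ← Real.rpow_add two_pos]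
    congr 1
    ring
  have h4 : (2 : ℝ) ^ (1 + k * e₁) * 2 ^ (-(k * e₁)) = 2 := by
    rw [← Real.rpow_add two_pos]
    have : 1 + k * e₁ + -(k * e₁) = 1 := by ring
    rw [this, Real.rpow_one]
  rw [Real.mul_rpow hW0.le h2k.le, h2, h3]
  calc 2 * 2 ^ k * W₀ ^ (1 - e) =
        (W₀ ^ (1 - e) * 2 ^ k) * (2 ^ (1 + k * e₁) * 2 ^ (-(k * e₁))) := by rw [h4]; ring
    _ ≤ (W₀ ^ (1 - e) * 2 ^ k) * (W₀ ^ (e - e₁) * 2 ^ (-(k * e₁))) := by
        refine mul_le_mul_of_nonneg_left ?_ (by positivity)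
        exact mul_le_mul_of_nonneg_right h1 (Real.rpow_nonneg two_pos.le _)
    _ = _ := by ring

/-- the set of the products `(∏ s) x` -/
def hst (X : Finset ℤ) (P : Finset ℕ) : Finset ℤ :=
  (X ×ˢ P.powerset).image fun z => ((∏ p ∈ z.2, p : ℕ) : ℤ) * z.1

lemma mem_hst {X : Finset ℤ} {P : Finset ℕ} {u : ℤ} :
    u ∈ hst X P ↔ ∃ x ∈ X, ∃ s ⊆ P, u = ((∏ p ∈ s, p : ℕ) : ℤ) * x := by
  unfold hst
  rw [Finset.mem_image]
  constructor
  · rintro ⟨⟨x, s⟩, h, rfl⟩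
    rw [Finset.mem_product, Finset.mem_powerset] at h
    exact ⟨x, h.1, s, h.2, rfl⟩
  · rintro ⟨x, hx, s, hs, rfl⟩
    exact ⟨(x, s), Finset.mem_product.2 ⟨hx, Finset.mem_powerset.2 hs⟩, rfl⟩

lemma card_hst (X : Finset ℤ) (P : Finset ℕ) :
    ((hst X P).card : ℝ) ≤ (X.card : ℝ) * 2 ^ P.card := by
  have h2 : (hst X P).card ≤ _ := Finset.card_image_le
  rw [Finset.card_product, Finset.card_powerset] at h2
  exact_mod_cast h2

theorem dense_host (T ε : ℝ) (hT : 0 ≤ T) (hε : 0 < ε) (hε1 : ε ≤ 1) :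
    ∃ η c : ℝ, 0 < η ∧ η ≤ 1 ∧ 0 < c ∧ ∀ (X : Finset ℤ) (P : Finset ℕ), (∀ p ∈ P, 2 ≤ p) →
      (∀ p ∈ P, ∀ p' ∈ P, p ≠ p' → Nat.Coprime p p') → (X.card : ℝ) ≤ 2 ^ (T * P.card) →
      ∀ (Y : Finset ℤ) (G : Finset (ℤ × ℤ)), G.Nonempty →
      (∀ g ∈ G, g.1 ∈ hst X P ∧ g.2 ∈ Y) →
      ((X.card : ℝ) * 2 ^ P.card * Y.card) ^ (1 - η) ≤ G.card →
      c * ((X.card : ℝ) * 2 ^ P.card * Y.card) ^ (1 - ε) ≤
        ((G.image fun g => g.1 + g.2).card : ℝ) := by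
  obtain ⟨η₀, c₀, hη₀, hc₀, h⟩ := res ((T + 1) * (8 / ε + 1) / (ε / 8)) (ε / 2) (by positivity)
    (by linarith)
  obtain ⟨e, he⟩ : ∃ e, e = min η₀ 1 := ⟨_, rfl⟩
  have he0 : 0 < e := by rw [he]; exact lt_min hη₀ one_pos
  have he1 : e ≤ 1 := by rw [he]; exact min_le_right _ _
  have heη : e ≤ η₀ := by rw [he]; exact min_le_left _ _
  obtain ⟨e₁, he₁⟩ : ∃ e₁, e₁ = min (e / 8) (ε / 8) := ⟨_, rfl⟩
  have he₁0 : 0 < e₁ := by rw [he₁]; exact lt_min (by linarith) (by linarith)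
  have he₁e : e₁ ≤ e / 8 := by rw [he₁]; exact min_le_left _ _
  have he₁ε : e₁ ≤ ε / 8 := by rw [he₁]; exact min_le_right _ _
  obtain ⟨M, hM⟩ : ∃ M : ℝ, M = 8 / ε := ⟨_, rfl⟩
  have hM0 : 0 < M := by rw [hM]; positivity
  rw [← hM] at h
  obtain ⟨N₀, hN₀⟩ : ∃ N₀ : ℝ, N₀ = 2 ^ ((T + 1) * (M + 1) * (3 / e)) := ⟨_, rfl⟩
  have hN₀1 : 1 ≤ N₀ := by
    rw [hN₀]
    exact Real.one_le_rpow one_le_two (by positivity)
  refine ⟨e₁, min (c₀ / 4) (1 / N₀), he₁0, by linarith, lt_min (by linarith) (by positivity), ?_⟩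
  intro X P hP2 hPc hXP Y G hG hGh hd
  obtain ⟨g₀, hg₀⟩ := hG
  have hXne : X.Nonempty := by
    obtain ⟨x, hx, _⟩ := mem_hst.1 (hGh g₀ hg₀).1
    exact ⟨x, hx⟩
  have hYne : Y.Nonempty := ⟨g₀.2, (hGh g₀ hg₀).2⟩
  obtain ⟨n, hn⟩ : ∃ n : ℝ, n = P.card := ⟨_, rfl⟩
  have hn0 : 0 ≤ n := by rw [hn]; positivity
  obtain ⟨V, hV⟩ : ∃ V : ℝ, V = (X.card : ℝ) * 2 ^ P.card := ⟨_, rfl⟩
  obtain ⟨y, hy⟩ : ∃ y : ℝ, y = (Y.card : ℝ) := ⟨_, rfl⟩
  obtain ⟨N, hN⟩ : ∃ N : ℝ, N = V * y := ⟨_, rfl⟩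
  have hX1 : (1 : ℝ) ≤ X.card := by exact_mod_cast hXne.card_pos
  have hy1 : 1 ≤ y := by rw [hy]; exact_mod_cast hYne.card_pos
  have h2n : (2 : ℝ) ^ P.card = 2 ^ n := by rw [hn, Real.rpow_natCast]
  have h2n0 : (0 : ℝ) < 2 ^ n := Real.rpow_pos_of_pos two_pos _
  have hVn : (2 : ℝ) ^ n ≤ V := by
    rw [hV, h2n]
    exact le_mul_of_one_le_left h2n0.le hX1
  have h2n1 : (1 : ℝ) ≤ 2 ^ n := Real.one_le_rpow one_le_two hn0
  have hV1 : 1 ≤ V := h2n1.trans hVn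
  have hV0 : 0 < V := by linarith
  have hVT : V ≤ 2 ^ ((T + 1) * n) := by
    rw [hV, h2n, add_mul, one_mul, Real.rpow_add two_pos]
    rw [← hn] at hXP
    exact mul_le_mul_of_nonneg_right hXP h2n0.le
  have hN1 : 1 ≤ N := by rw [hN]; exact one_le_mul_of_one_le_of_one_le hV1 hy1
  have hN0 : 0 < N := by linarith
  rw [← hV, ← hy, ← hN] at hd ⊢
  obtain ⟨m, hm⟩ : ∃ m : ℝ, m = ((G.image fun g => g.1 + g.2).card : ℝ) := ⟨_, rfl⟩
  have hm1 : 1 ≤ m := by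
    rw [hm]
    exact_mod_cast Finset.card_pos.2 ⟨_, Finset.mem_image_of_mem _ hg₀⟩
  rw [← hm]
  by_cases hc1 : V ^ M ≤ y
  · -- many `y`
    have h1 : (G.card : ℝ) ≤ m * V := by
      have h2 := Finset.card_le_mul_card_image (f := Prod.fst) G
        (G.image fun g => g.1 + g.2).card (by
          intro a _
          refine Finset.card_le_card_of_injOn (fun g => g.1 + g.2) ?_ ?_
          · intro g hg
            exact Finset.mem_coe.2 (Finset.mem_image_of_mem _ (Finset.mem_filter.1 hg).1)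
          · intro g hg g' hg' hgg
            have e1 := (Finset.mem_filter.1 hg).2
            have e2 := (Finset.mem_filter.1 hg').2
            simp only at hgg
            rw [e1, e2] at hgg
            exact Prod.ext (e1.trans e2.symm) (by linarith))
      have h3 : (G.image Prod.fst).card ≤ (hst X P).card :=
        Finset.card_le_card fun u hu => by
          obtain ⟨g, hg, rfl⟩ := Finset.mem_image.1 hu
          exact (hGh g hg).1
      have h4 : ((G.image Prod.fst).card : ℝ) ≤ V := by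
        rw [hV]
        exact le_trans (by exact_mod_cast h3) (card_hst X P)
      have h5 : (G.card : ℝ) ≤ m * ((G.image Prod.fst).card : ℝ) := by
        rw [hm]
        exact_mod_cast h2
      exact h5.trans (mul_le_mul_of_nonneg_left h4 (by linarith))
    have h2 : V ≤ N ^ (ε / 8) := by
      have h3 : V ^ (M + 1) ≤ N := by
        rw [hN, Real.rpow_add hV0, Real.rpow_one, mul_comm V y]
        exact mul_le_mul_of_nonneg_right hc1 hV0.le
      have h4 : V = (V ^ (M + 1)) ^ (1 / (M + 1)) := by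
        rw [← Real.rpow_mul hV0.le, mul_one_div_cancel (by linarith), Real.rpow_one]
      have h5 : 1 / (M + 1) ≤ ε / 8 := by
        rw [hM, div_le_iff₀ (by positivity)]
        have : ε / 8 * (8 / ε + 1) = 1 + ε / 8 := by field_simp
        rw [this]
        linarith
      rw [h4]
      exact (Real.rpow_le_rpow (by positivity) h3 (by positivity)).trans
        (Real.rpow_le_rpow_of_exponent_le hN1 h5)
    have h3 : N ^ (1 - e₁) ≤ m * N ^ (ε / 8) :=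
      hd.trans (h1.trans (mul_le_mul_of_nonneg_left h2 (by linarith)))
    have h4 : N ^ (1 - e₁ - ε / 8) ≤ m := by
      rw [Real.rpow_sub hN0, div_le_iff₀ (Real.rpow_pos_of_pos hN0 _)]
      exact h3
    calc min (c₀ / 4) (1 / N₀) * N ^ (1 - ε) ≤ 1 * N ^ (1 - e₁ - ε / 8) := by
          refine mul_le_mul ?_ ?_ (by positivity) zero_le_one
          · refine (min_le_right _ _).trans ?_
            rw [div_le_iff₀ (by linarith)]
            linarith
          · exact Real.rpow_le_rpow_of_exponent_le hN1 (by linarith)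
      _ ≤ m := by rw [one_mul]; exact h4
  push Not at hc1
  have hNV : N ≤ V ^ (M + 1) := by
    rw [hN, Real.rpow_add hV0, Real.rpow_one, mul_comm V y]
    exact mul_le_mul_of_nonneg_right hc1.le hV0.le
  have hNn : N ≤ 2 ^ ((T + 1) * (M + 1) * n) := by
    refine hNV.trans ((Real.rpow_le_rpow hV0.le hVT (by linarith)).trans (le_of_eq ?_))
    rw [← Real.rpow_mul two_pos.le]
    congr 1
    ring
  by_cases hn3 : n < 3 / e
  · -- few multipliers
    have h1 : N ≤ N₀ := by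
      rw [hN₀]
      refine hNn.trans (Real.rpow_le_rpow_of_exponent_le one_le_two ?_)
      exact mul_le_mul_of_nonneg_left hn3.le (by positivity)
    calc min (c₀ / 4) (1 / N₀) * N ^ (1 - ε) ≤ (1 / N₀) * N₀ := by
          refine mul_le_mul (min_le_right _ _) ?_ (by positivity) (by positivity)
          refine le_trans ?_ h1
          calc N ^ (1 - ε) ≤ N ^ (1 : ℝ) := Real.rpow_le_rpow_of_exponent_le hN1 (by linarith)
            _ = N := Real.rpow_one _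
      _ = 1 := by field_simp
      _ ≤ m := hm1
  push Not at hn3
  have hn3' : 3 ≤ n := by
    refine le_trans ?_ hn3
    rw [le_div_iff₀ he0]
    linarith
  -- the multipliers used
  obtain ⟨k, hk⟩ : ∃ k : ℕ, k = ⌈ε / 8 * n⌉₊ := ⟨_, rfl⟩
  have hk1 : ε / 8 * n ≤ k := by rw [hk]; exact Nat.le_ceil _
  have hk2 : (k : ℝ) ≤ ε / 8 * n + 1 := by
    rw [hk]
    exact (Nat.ceil_lt_add_one (by positivity)).le
  have hk3 : (k : ℝ) ≤ n / 8 + 1 := by
    have : ε / 8 * n ≤ 1 / 8 * n := mul_le_mul_of_nonneg_right (by linarith) hn0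
    linarith
  have hkP : k ≤ P.card := by
    have : (k : ℝ) ≤ P.card := by rw [← hn]; linarith
    exact_mod_cast this
  obtain ⟨P₁, hP₁, hP₁k⟩ := Finset.exists_subset_card_eq hkP
  have hP₂ : (P \ P₁).card = P.card - k := by rw [Finset.card_sdiff_of_subset hP₁, hP₁k]
  obtain ⟨X', hX'⟩ : ∃ X' : Finset ℤ, X' = hst X (P \ P₁) := ⟨_, rfl⟩
  obtain ⟨W, hW⟩ : ∃ W : Finset (ℤ × ℤ), W = X' ×ˢ Y := ⟨_, rfl⟩
  obtain ⟨W₀, hW₀⟩ : ∃ W₀ : ℝ, W₀ = N / 2 ^ (k : ℝ) := ⟨_, rfl⟩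
  have h2k0 : (0 : ℝ) < 2 ^ (k : ℝ) := Real.rpow_pos_of_pos two_pos _
  have hNW : W₀ * 2 ^ (k : ℝ) = N := by rw [hW₀]; field_simp
  have hWW : (W.card : ℝ) ≤ W₀ := by
    have h1 : (X'.card : ℝ) ≤ (X.card : ℝ) * 2 ^ (P \ P₁).card := by rw [hX']; exact card_hst _ _
    have h2 : (2 : ℝ) ^ (P \ P₁).card * 2 ^ (k : ℝ) = 2 ^ P.card := by
      rw [hP₂, Real.rpow_natCast, ← pow_add]
      congr 1
      omega
    rw [hW₀, le_div_iff₀ h2k0, hN, hV, hy, hW, Finset.card_product, Nat.cast_mul, ← h2]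
    have h3 : (0 : ℝ) ≤ Y.card := Nat.cast_nonneg _
    calc (X'.card : ℝ) * Y.card * 2 ^ (k : ℝ) = X'.card * (Y.card * 2 ^ (k : ℝ)) := by ring
      _ ≤ ((X.card : ℝ) * 2 ^ (P \ P₁).card) * (Y.card * 2 ^ (k : ℝ)) :=
          mul_le_mul_of_nonneg_right h1 (by positivity)
      _ = _ := by ring
  have hW₀n : (2 : ℝ) ^ (n - k) ≤ W₀ := by
    rw [hW₀, Real.rpow_sub two_pos, ← hNW]
    rw [hNW]
    refine div_le_div_of_nonneg_right ?_ h2k0.le
    rw [hN]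
    exact hVn.trans (le_mul_of_one_le_right hV0.le hy1)
  have hW₀1 : 1 ≤ W₀ := le_trans (Real.one_le_rpow one_le_two (by linarith)) hW₀n
  have hst1 := star he0 he1 he₁e hk3 hn3 hW₀n
  rw [hNW] at hst1
  -- decomposition of the pairs
  obtain ⟨Gs, hGs⟩ : ∃ Gs : Finset ℕ → Finset (ℤ × ℤ), Gs = fun s =>
    W.filter fun w => (((∏ p ∈ s, p : ℕ) : ℤ) * w.1, w.2) ∈ G := ⟨_, rfl⟩
  have hcov : G.card ≤ ∑ s ∈ P₁.powerset, (Gs s).card := by
    have h1 : G ⊆ P₁.powerset.biUnion fun s =>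
        (Gs s).image fun w => (((∏ p ∈ s, p : ℕ) : ℤ) * w.1, w.2) := by
      intro g hg
      obtain ⟨hg1, hg2⟩ := hGh g hg
      obtain ⟨x, hx, s, hs, e1⟩ := mem_hst.1 hg1
      rw [Finset.mem_biUnion]
      refine ⟨s ∩ P₁, Finset.mem_powerset.2 Finset.inter_subset_right, ?_⟩
      have e2 : ((∏ p ∈ s ∩ P₁, p : ℕ) : ℤ) * (((∏ p ∈ s \ P₁, p : ℕ) : ℤ) * x) = g.1 := by
        rw [e1, ← mul_assoc, ← Nat.cast_mul, Finset.prod_inter_mul_prod_sdiff]
      rw [Finset.mem_image]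
      refine ⟨(((∏ p ∈ s \ P₁, p : ℕ) : ℤ) * x, g.2), ?_, ?_⟩
      · rw [hGs]
        refine Finset.mem_filter.2 ⟨?_, ?_⟩
        · rw [hW, Finset.mem_product]
          refine ⟨?_, hg2⟩
          rw [hX']
          exact mem_hst.2 ⟨x, hx, s \ P₁, Finset.sdiff_subset_sdiff hs (Finset.Subset.refl _), rfl⟩
        · simp only [e2]
          exact hg
      · simp only [e2]
    calc G.card ≤ _ := Finset.card_le_card h1
      _ ≤ ∑ s ∈ P₁.powerset, ((Gs s).image fun w =>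
            (((∏ p ∈ s, p : ℕ) : ℤ) * w.1, w.2)).card := Finset.card_biUnion_le
      _ ≤ _ := Finset.sum_le_sum fun s _ => Finset.card_image_le
  have hWne : W.Nonempty := by
    rw [hW]
    refine Finset.Nonempty.product ?_ hYne
    rw [hX']
    obtain ⟨x, hx⟩ := hXne
    exact ⟨_, mem_hst.2 ⟨x, hx, ∅, Finset.empty_subset _, rfl⟩⟩
  have hW1 : (1 : ℝ) ≤ W.card := by exact_mod_cast hWne.card_pos
  have hWT : (W.card : ℝ) ≤ 2 ^ ((T + 1) * (M + 1) / (ε / 8) * P₁.card) := by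
    have h1 : W₀ ≤ N := by
      rw [← hNW]
      exact le_mul_of_one_le_right (by linarith) (Real.one_le_rpow one_le_two (by positivity))
    refine hWW.trans (h1.trans (hNn.trans ?_))
    refine Real.rpow_le_rpow_of_exponent_le one_le_two ?_
    rw [hP₁k]
    calc (T + 1) * (M + 1) * n = (T + 1) * (M + 1) / (ε / 8) * (ε / 8 * n) := by
          field_simp
      _ ≤ _ := mul_le_mul_of_nonneg_left hk1 (by positivity)
  obtain ⟨𝒮, h𝒮P, h𝒮, hgood⟩ := h P₁ (fun p hp => hP2 p (hP₁ hp))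
    (fun p hp p' hp' => hPc p (hP₁ hp) p' (hP₁ hp')) W hWne hWT
  rw [hP₁k, ← Real.rpow_natCast] at h𝒮
  have hpow : (W.card : ℝ) ^ (1 - η₀) ≤ W₀ ^ (1 - e) := by
    calc (W.card : ℝ) ^ (1 - η₀) ≤ (W.card : ℝ) ^ (1 - e) :=
          Real.rpow_le_rpow_of_exponent_le hW1 (by linarith)
      _ ≤ _ := Real.rpow_le_rpow (by linarith) hWW (by linarith)
  -- a multiplier with many pairs
  have hex : ∃ s ∈ P₁.powerset, s ∉ 𝒮 ∧ (G.card : ℝ) ≤ 2 * 2 ^ (k : ℝ) * (Gs s).card := by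
    by_contra hno
    push Not at hno
    have h1 : (∑ s ∈ P₁.powerset, ((Gs s).card : ℝ)) ≤
        ∑ s ∈ 𝒮, (W.card : ℝ) + ∑ s ∈ P₁.powerset \ 𝒮, ((Gs s).card : ℝ) := by
      rw [← Finset.sum_sdiff h𝒮P, add_comm]
      refine add_le_add ?_ le_rfl
      refine Finset.sum_le_sum fun s _ => ?_
      rw [hGs]
      exact_mod_cast Finset.card_le_card (Finset.filter_subset _ _)
    have h2 : (∑ s ∈ 𝒮, (W.card : ℝ)) ≤ 2 ^ (k : ℝ) * W₀ ^ (1 - e) := by
      rw [Finset.sum_const, nsmul_eq_mul]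
      calc (𝒮.card : ℝ) * W.card ≤ ((W.card : ℝ) ^ (-η₀) * 2 ^ (k : ℝ)) * W.card :=
            mul_le_mul_of_nonneg_right h𝒮 (by linarith)
        _ = 2 ^ (k : ℝ) * (W.card : ℝ) ^ (1 - η₀) := by
            rw [sub_eq_add_neg, Real.rpow_add (by linarith), Real.rpow_one]
            ring
        _ ≤ _ := mul_le_mul_of_nonneg_left hpow h2k0.le
    have h3 : 2 * 2 ^ (k : ℝ) * ∑ s ∈ P₁.powerset \ 𝒮, ((Gs s).card : ℝ) <
        2 ^ (k : ℝ) * G.card ∨ P₁.powerset \ 𝒮 = ∅ := by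
      by_cases hem : P₁.powerset \ 𝒮 = ∅
      · exact Or.inr hem
      left
      rw [Finset.mul_sum]
      have h4 : ∑ s ∈ P₁.powerset \ 𝒮, 2 * 2 ^ (k : ℝ) * ((Gs s).card : ℝ) <
          ∑ s ∈ P₁.powerset \ 𝒮, (G.card : ℝ) := by
        refine Finset.sum_lt_sum_of_nonempty (Finset.nonempty_iff_ne_empty.2 hem) fun s hs => ?_
        rw [Finset.mem_sdiff] at hs
        exact hno s hs.1 hs.2
      refine h4.trans_le ?_
      rw [Finset.sum_const, nsmul_eq_mul]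
      refine mul_le_mul_of_nonneg_right ?_ (Nat.cast_nonneg _)
      have h5 : (P₁.powerset \ 𝒮).card ≤ P₁.powerset.card := Finset.card_le_card Finset.sdiff_subset
      rw [Finset.card_powerset, hP₁k] at h5
      rw [Real.rpow_natCast]
      exact_mod_cast h5
    have h4 : (G.card : ℝ) ≤ ∑ s ∈ P₁.powerset, ((Gs s).card : ℝ) := by exact_mod_cast hcov
    have hG0 : (0 : ℝ) < G.card := by exact_mod_cast Finset.card_pos.2 ⟨g₀, hg₀⟩
    have h5 : 2 * (∑ s ∈ 𝒮, (W.card : ℝ)) ≤ G.card := by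
      calc 2 * (∑ s ∈ 𝒮, (W.card : ℝ)) ≤ 2 * 2 ^ (k : ℝ) * W₀ ^ (1 - e) := by linarith
        _ ≤ _ := hst1.trans hd
    rcases h3 with h3 | h3
    · have h6 : 2 * (∑ s ∈ P₁.powerset \ 𝒮, ((Gs s).card : ℝ)) < G.card := by
        have h7 : 2 ^ (k : ℝ) * (2 * ∑ s ∈ P₁.powerset \ 𝒮, ((Gs s).card : ℝ)) <
            2 ^ (k : ℝ) * G.card := by
          calc _ = 2 * 2 ^ (k : ℝ) * ∑ s ∈ P₁.powerset \ 𝒮, ((Gs s).card : ℝ) := by ring
            _ < _ := h3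
        exact lt_of_mul_lt_mul_left h7 h2k0.le
      linarith
    · rw [h3, Finset.sum_empty] at h1
      linarith
  obtain ⟨s, hs, hs𝒮, hsG⟩ := hex
  have hGsW : Gs s ⊆ W := by rw [hGs]; exact Finset.filter_subset _ _
  have hlow : N ^ (1 - e₁) ≤ 2 * 2 ^ (k : ℝ) * (Gs s).card := hd.trans hsG
  have hlow2 : (W.card : ℝ) ^ (1 - η₀) ≤ (Gs s).card := by
    have h1 : 2 * 2 ^ (k : ℝ) * W₀ ^ (1 - e) ≤ 2 * 2 ^ (k : ℝ) * (Gs s).card := hst1.trans hlow
    exact hpow.trans (le_of_mul_le_mul_left h1 (by positivity))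
  have hres := hgood s hs hs𝒮 (Gs s) hGsW hlow2
  have himg : ((Gs s).image fun w => ((∏ p ∈ s, p : ℕ) : ℤ) * w.1 + w.2) ⊆
      G.image fun g => g.1 + g.2 := by
    intro z hz
    obtain ⟨w, hw, rfl⟩ := Finset.mem_image.1 hz
    rw [hGs] at hw
    exact Finset.mem_image.2 ⟨_, (Finset.mem_filter.1 hw).2, rfl⟩
  have hres2 : c₀ * (W.card : ℝ) ^ (1 - ε / 2) ≤ m := by
    rw [hm]
    exact hres.trans (by exact_mod_cast Finset.card_le_card himg)
  have hWlow : N ^ (1 - ε / 4) / 4 ≤ W.card := by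
    have h1 : (2 : ℝ) ^ (k : ℝ) ≤ 2 * N ^ (ε / 8) := by
      calc (2 : ℝ) ^ (k : ℝ) ≤ 2 ^ (ε / 8 * n + 1) := Real.rpow_le_rpow_of_exponent_le one_le_two hk2
        _ = 2 * (2 ^ n) ^ (ε / 8) := by
            rw [Real.rpow_add two_pos, Real.rpow_one, ← Real.rpow_mul two_pos.le, mul_comm]
            congr 2
            ring
        _ ≤ _ := by
            refine mul_le_mul_of_nonneg_left (Real.rpow_le_rpow h2n0.le ?_ (by positivity)) two_pos.le
            rw [hN]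
            exact hVn.trans (le_mul_of_one_le_right hV0.le hy1)
    have h2 : ((Gs s).card : ℝ) ≤ W.card := by exact_mod_cast Finset.card_le_card hGsW
    have h3 : N ^ (1 - e₁) ≤ 4 * N ^ (ε / 8) * W.card := by
      refine hlow.trans ?_
      refine mul_le_mul ?_ h2 (Nat.cast_nonneg _) (by positivity)
      linarith
    have h4 : N ^ (1 - ε / 4) * N ^ (ε / 8) ≤ N ^ (1 - e₁) := by
      rw [← Real.rpow_add hN0]
      exact Real.rpow_le_rpow_of_exponent_le hN1 (by linarith)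
    have h5 : N ^ (ε / 8) * N ^ (1 - ε / 4) ≤ N ^ (ε / 8) * (4 * W.card) := by
      calc _ = N ^ (1 - ε / 4) * N ^ (ε / 8) := mul_comm _ _
        _ ≤ _ := h4.trans h3
        _ = _ := by ring
    have h6 := le_of_mul_le_mul_left h5 (Real.rpow_pos_of_pos hN0 _)
    linarith
  refine le_trans ?_ hres2
  calc min (c₀ / 4) (1 / N₀) * N ^ (1 - ε) ≤ c₀ / 4 * N ^ ((1 - ε / 4) * (1 - ε / 2)) := by
        refine mul_le_mul (min_le_left _ _) ?_ (by positivity) (by positivity)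
        refine Real.rpow_le_rpow_of_exponent_le hN1 ?_
        nlinarith
    _ = c₀ * ((1 / 4) * (N ^ (1 - ε / 4)) ^ (1 - ε / 2)) := by
        rw [← Real.rpow_mul hN0.le]
        ring
    _ ≤ c₀ * ((1 / 4) ^ (1 - ε / 2) * (N ^ (1 - ε / 4)) ^ (1 - ε / 2)) := by
        refine mul_le_mul_of_nonneg_left ?_ hc₀.le
        refine mul_le_mul_of_nonneg_right ?_ (by positivity)
        calc (1 / 4 : ℝ) = (1 / 4 : ℝ) ^ (1 : ℝ) := (Real.rpow_one _).symm
          _ ≤ _ := Real.rpow_le_rpow_of_exponent_ge (by norm_num) (by norm_num) (by linarith)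
    _ = c₀ * (N ^ (1 - ε / 4) / 4) ^ (1 - ε / 2) := by
        rw [← Real.mul_rpow (by norm_num) (by positivity)]
        congr 2
        ring
    _ ≤ _ := by
        refine mul_le_mul_of_nonneg_left (Real.rpow_le_rpow (by positivity) hWlow (by linarith)) hc₀.le

end Pool.Agent.Run7.h386.PW
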