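import Pool.Agent.Run7.h386.PW.Graph

/-! Sums along dense sets of `k`-tuples. -/

set_option autoImplicit false

namespace Pool.Agent.Run7.h386.PW

open Finset
open scoped Classical

/-- the bound is monotone in the size of the surrounding set -/
lemma bound_mono {N m a C ε : ℝ} (hm : 0 < m) (hmN : m ≤ N) (ha : 0 ≤ a) (hC : 1 ≤ C)
    (hε : 0 < ε) : N ^ (1 - ε) * (a / N) ^ C ≤ m ^ (1 - ε) * (a / m) ^ C := by
  have hN : 0 < N := hm.trans_le hmN
  have key : ∀ x : ℝ, 0 < x → x ^ (1 - ε) * (a / x) ^ C = a ^ C * x ^ (1 - ε - C) := by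
    intro x hx
    rw [Real.div_rpow ha hx.le, Real.rpow_sub hx (1 - ε) C]
    ring
  rw [key N hN, key m hm]
  refine mul_le_mul_of_nonneg_left ?_ (Real.rpow_nonneg ha _)
  exact Real.rpow_le_rpow_of_nonpos hm hmN (by linarith)

/-- sums `u + y` along a set of pairs, power dependence on the density -/
theorem host_step (T ε : ℝ) (hT : 0 ≤ T) (hε : 0 < ε) (hε1 : ε ≤ 1) :
    ∃ C c : ℝ, 1 ≤ C ∧ 0 < c ∧ c ≤ 1 ∧ ∀ (X : Finset ℤ) (P : Finset ℕ), (∀ p ∈ P, 2 ≤ p) →
      (∀ p ∈ P, ∀ p' ∈ P, p ≠ p' → Nat.Coprime p p') → (X.card : ℝ) ≤ 2 ^ (T * P.card) →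
      ∀ (Y : Finset ℤ) (G : Finset (ℤ × ℤ)), G.Nonempty →
      (∀ g ∈ G, g.1 ∈ hst X P ∧ g.2 ∈ Y) →
      ∀ N : ℝ, (X.card : ℝ) * 2 ^ P.card * Y.card ≤ N →
      c * N ^ (1 - ε) * (G.card / N) ^ C ≤ ((G.image fun g => g.1 + g.2).card : ℝ) := by
  obtain ⟨η, c, hη, hη1, hc, h⟩ := dense_host T ε hT hε hε1
  refine ⟨1 / η, min c 1, by rw [le_div_iff₀ hη]; linarith, lt_min hc one_pos,
    min_le_right _ _, ?_⟩
  intro X P hP2 hPc hXP Y G hG hGh N' hN'
  have h1 := h X P hP2 hPc hXP Y G hG hGh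
  obtain ⟨N, hN⟩ : ∃ N : ℝ, N = (X.card : ℝ) * 2 ^ P.card * Y.card := ⟨_, rfl⟩
  obtain ⟨s, hs⟩ : ∃ s : ℝ, s = (G.card : ℝ) := ⟨_, rfl⟩
  rw [← hN] at h1 hN'
  rw [← hs] at h1 ⊢
  have hs0 : 0 < s := by rw [hs]; exact_mod_cast hG.card_pos
  have hs1 : 1 ≤ s := by rw [hs]; exact_mod_cast hG.card_pos
  have hsN : s ≤ N := by
    have h2 : G ⊆ hst X P ×ˢ Y := fun g hg => Finset.mem_product.2 (hGh g hg)
    have h3 := Finset.card_le_card h2
    rw [Finset.card_product] at h3
    have h4 := card_hst X P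
    rw [hs, hN]
    calc (G.card : ℝ) ≤ ((hst X P).card : ℝ) * Y.card := by exact_mod_cast h3
      _ ≤ _ := mul_le_mul_of_nonneg_right h4 (Nat.cast_nonneg _)
  have hN1 : 1 ≤ N := hs1.trans hsN
  have hN0 : 0 < N := by linarith
  have hC1 : 1 ≤ 1 / η := by rw [le_div_iff₀ hη]; linarith
  have hr0 : 0 ≤ s / N := by positivity
  have hr1 : s / N ≤ 1 := by rw [div_le_one hN0]; exact hsN
  have h0 : min c 1 * N' ^ (1 - ε) * (s / N') ^ (1 / η) ≤
      min c 1 * N ^ (1 - ε) * (s / N) ^ (1 / η) := by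
    rw [mul_assoc, mul_assoc]
    exact mul_le_mul_of_nonneg_left (bound_mono hN0 hN' hs0.le hC1 hε) (by positivity)
  refine h0.trans ?_
  by_cases hd : N ^ (1 - η) ≤ s
  · refine le_trans ?_ (h1 hd)
    calc min c 1 * N ^ (1 - ε) * (s / N) ^ (1 / η) ≤ c * N ^ (1 - ε) * 1 := by
          refine mul_le_mul ?_ (Real.rpow_le_one hr0 hr1 (by positivity)) (by positivity)
            (by positivity)
          exact mul_le_mul_of_nonneg_right (min_le_left _ _) (by positivity)
      _ = _ := mul_one _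
  · push Not at hd
    have hm1 : (1 : ℝ) ≤ ((G.image fun g => g.1 + g.2).card : ℝ) := by
      exact_mod_cast (hG.image _).card_pos
    refine le_trans ?_ hm1
    have h1 : s / N ≤ N ^ (-η) := by
      rw [div_le_iff₀ hN0]
      refine hd.le.trans (le_of_eq ?_)
      rw [sub_eq_add_neg, Real.rpow_add hN0, Real.rpow_one, mul_comm]
    have h2 : (s / N) ^ (1 / η) ≤ N ^ (-1 : ℝ) := by
      calc (s / N) ^ (1 / η) ≤ (N ^ (-η)) ^ (1 / η) := Real.rpow_le_rpow hr0 h1 (by positivity)
        _ = N ^ (-1 : ℝ) := by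
            rw [← Real.rpow_mul hN0.le]
            congr 1
            field_simp
    calc min c 1 * N ^ (1 - ε) * (s / N) ^ (1 / η) ≤ 1 * N ^ (1 - ε) * N ^ (-1 : ℝ) := by
          refine mul_le_mul ?_ h2 (by positivity) (by positivity)
          exact mul_le_mul_of_nonneg_right (min_le_right _ _) (by positivity)
      _ = N ^ (-ε) := by
          rw [one_mul, ← Real.rpow_add hN0]
          congr 1
          ring
      _ ≤ 1 := Real.rpow_le_one_of_one_le_of_nonpos hN1 (by linarith)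

/-- an additive code for finitely many pairs -/
lemma exists_code {k : ℕ} (D : Finset ((Fin k → ℤ) × ℤ)) : ∃ f : (Fin k → ℤ) → ℤ,
    ∀ d ∈ D, ∀ d' ∈ D, f d.1 + d.2 = f d'.1 + d'.2 → d = d' := by
  obtain ⟨M, hM⟩ : ∃ M : ℤ, M = ∑ d ∈ D, |d.2| := ⟨_, rfl⟩
  have hM1 : ∀ d ∈ D, |d.2| ≤ M := fun d hd => by
    rw [hM]
    exact Finset.single_le_sum (f := fun d : (Fin k → ℤ) × ℤ => |d.2|)
      (fun _ _ => abs_nonneg _) hd
  have hM0 : 0 ≤ M := by rw [hM]; exact Finset.sum_nonneg fun _ _ => abs_nonneg _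
  refine ⟨fun v => (2 * M + 1) * (Encodable.encode v : ℤ), ?_⟩
  intro d hd d' hd' h
  simp only at h
  have h1 := abs_le.1 (hM1 d hd)
  have h2 := abs_le.1 (hM1 d' hd')
  have h3 : (2 * M + 1) * ((Encodable.encode d.1 : ℤ) - Encodable.encode d'.1) = d'.2 - d.2 := by
    linarith
  have h4 : (Encodable.encode d.1 : ℤ) - Encodable.encode d'.1 = 0 := by
    by_contra hne
    rcases lt_or_gt_of_ne hne with h5 | h5
    · nlinarith
    · nlinarith
  rw [h4, mul_zero] at h3
  have h5 : d.1 = d'.1 := by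
    have h6 : Encodable.encode d.1 = Encodable.encode d'.1 := by
      have := sub_eq_zero.1 h4
      exact_mod_cast this
    exact Encodable.encode_injective h6
  exact Prod.ext h5 (by linarith)

/-- sums along a set of `k`-tuples -/
theorem hyper (T : ℝ) (hT : 0 ≤ T) : ∀ (k : ℕ) (ε : ℝ), 0 < ε → ε ≤ 1 →
    ∃ C c : ℝ, 1 ≤ C ∧ 0 < c ∧ ∀ (X : Fin k → Finset ℤ) (P : Fin k → Finset ℕ) (l : Fin k → ℤ),
      (∀ i, ∀ p ∈ P i, 2 ≤ p) →
      (∀ i, ∀ p ∈ P i, ∀ p' ∈ P i, p ≠ p' → Nat.Coprime p p') →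
      (∀ i, ((X i).card : ℝ) ≤ 2 ^ (T * (P i).card)) → (∀ i, l i ≠ 0) →
      ∀ (B : Finset ℤ) (H : Finset ((Fin k → ℤ) × ℤ)), H.Nonempty →
      (∀ h ∈ H, (∀ i, h.1 i ∈ hst (X i) (P i)) ∧ h.2 ∈ B) →
      ∀ N : ℝ, (B.card : ℝ) * ∏ i, ((X i).card : ℝ) * 2 ^ (P i).card ≤ N →
      c * N ^ (1 - ε) * (H.card / N) ^ C ≤
        ((H.image fun h => (∑ i, l i * h.1 i) + h.2).card : ℝ) := by
  intro k
  induction k with
  | zero =>
    intro ε hε hε1
    refine ⟨1, 1, le_rfl, one_pos, ?_⟩
    intro X P l _ _ _ _ B H hH hHh N hN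
    have hinj : ∀ x ∈ H, ∀ y ∈ H, (fun h : (Fin 0 → ℤ) × ℤ => (∑ i, l i * h.1 i) + h.2) x =
        (fun h : (Fin 0 → ℤ) × ℤ => (∑ i, l i * h.1 i) + h.2) y → x = y := by
      intro x _ y _ hxy
      simp only [Finset.univ_eq_empty, Finset.sum_empty, zero_add] at hxy
      exact Prod.ext (Subsingleton.elim _ _) hxy
    rw [Finset.card_image_of_injOn fun x hx y hy hxy => hinj x hx y hy hxy]
    have hH1 : (1 : ℝ) ≤ H.card := by exact_mod_cast hH.card_pos
    have hHB : (H.card : ℝ) ≤ B.card := by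
      have h1 : H.card ≤ B.card := by
        refine Finset.card_le_card_of_injOn Prod.snd (fun h hh => (hHh h hh).2) ?_
        intro x _ y _ hxy
        exact Prod.ext (Subsingleton.elim _ _) hxy
      exact_mod_cast h1
    have hN1 : 1 ≤ N := by
      simp only [Finset.univ_eq_empty, Finset.prod_empty, mul_one] at hN
      linarith
    have hN0 : 0 < N := by linarith
    rw [Real.rpow_one, one_mul]
    calc N ^ (1 - ε) * (H.card / N) = H.card * (N ^ (1 - ε) * N ^ (-1 : ℝ)) := by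
          rw [Real.rpow_neg_one]
          ring
      _ = H.card * N ^ (-ε) := by
          rw [← Real.rpow_add hN0]
          congr 2
          ring
      _ ≤ H.card * 1 := mul_le_mul_of_nonneg_left
          (Real.rpow_le_one_of_one_le_of_nonpos hN1 (by linarith)) (Nat.cast_nonneg _)
      _ = _ := mul_one _
  | succ k ih =>
    intro ε hε hε1
    obtain ⟨C, c, hC, hc, hk⟩ := ih (ε / 2) (by linarith) (by linarith)
    have hC0 : 0 < C := by linarith
    have hε'1 : ε / (2 * C) ≤ 1 := by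
      rw [div_le_one (by positivity)]
      linarith
    obtain ⟨C', c', hC', hc', hc'1, hst'⟩ := host_step T (ε / (2 * C)) hT (by positivity) hε'1
    refine ⟨C * C', c * c' ^ C, by nlinarith, mul_pos hc (Real.rpow_pos_of_pos hc' _), ?_⟩
    intro X P l hP2 hPc hXP hl B H hH hHh N hN
    -- code of the other coordinates
    obtain ⟨f, hf⟩ := exists_code (H.image fun h => (Fin.tail h.1, h.2))
    set G : Finset (ℤ × ℤ) := H.image fun h => (l 0 * h.1 0, f (Fin.tail h.1) + h.2) with hG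
    set Y : Finset ℤ := H.image fun h => f (Fin.tail h.1) + h.2 with hY
    set H' : Finset ((Fin k → ℤ) × ℤ) := H.image fun h => (Fin.tail h.1, l 0 * h.1 0 + h.2) with hH'
    set B' : Finset ℤ := H.image fun h => l 0 * h.1 0 + h.2 with hB'
    have hGcard : G.card = H.card := by
      rw [hG]
      refine Finset.card_image_of_injOn ?_
      intro x hx y hy hxy
      simp only [Prod.mk.injEq] at hxy
      have h1 := mul_left_cancel₀ (hl 0) hxy.1
      have h2 : (Fin.tail x.1, x.2) = (Fin.tail y.1, y.2) :=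
        hf (Fin.tail x.1, x.2) (Finset.mem_image_of_mem (fun h => (Fin.tail h.1, h.2)) hx)
          (Fin.tail y.1, y.2) (Finset.mem_image_of_mem (fun h => (Fin.tail h.1, h.2)) hy) hxy.2
      have h21 : Fin.tail x.1 = Fin.tail y.1 := (Prod.ext_iff.1 h2).1
      have h22 : x.2 = y.2 := (Prod.ext_iff.1 h2).2
      refine Prod.ext ?_ h22
      rw [← Fin.cons_self_tail x.1, ← Fin.cons_self_tail y.1, h1, h21]
    obtain ⟨R, hR⟩ : ∃ R : ℝ, R = ∏ i : Fin k, ((X i.succ).card : ℝ) * 2 ^ (P i.succ).card :=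
      ⟨_, rfl⟩
    obtain ⟨V, hV⟩ : ∃ V : ℝ, V = ((X 0).card : ℝ) * 2 ^ (P 0).card := ⟨_, rfl⟩
    rw [Fin.prod_univ_succ, ← hR, ← hV] at hN
    have hR0 : 0 ≤ R := by
      rw [hR]
      exact Finset.prod_nonneg fun i _ => mul_nonneg (Nat.cast_nonneg _) (pow_nonneg two_pos.le _)
    have hV0 : 0 ≤ V := by
      rw [hV]
      exact mul_nonneg (Nat.cast_nonneg _) (pow_nonneg two_pos.le _)
    have hcardtail : ((H.image fun h => (Fin.tail h.1, h.2)).card : ℝ) ≤ R * B.card := by
      have h1 : (H.image fun h => (Fin.tail h.1, h.2)) ⊆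
          (Fintype.piFinset fun i : Fin k => hst (X i.succ) (P i.succ)) ×ˢ B := by
        intro z hz
        obtain ⟨h, hh, rfl⟩ := Finset.mem_image.1 hz
        refine Finset.mem_product.2 ⟨?_, (hHh h hh).2⟩
        rw [Fintype.mem_piFinset]
        exact fun i => (hHh h hh).1 i.succ
      have h2 := Finset.card_le_card h1
      rw [Finset.card_product, Fintype.card_piFinset] at h2
      calc ((H.image fun h => (Fin.tail h.1, h.2)).card : ℝ) ≤
            ((∏ i : Fin k, (hst (X i.succ) (P i.succ)).card : ℕ) : ℝ) * B.card := by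
            exact_mod_cast h2
        _ ≤ R * B.card := by
            refine mul_le_mul_of_nonneg_right ?_ (Nat.cast_nonneg _)
            rw [hR, Nat.cast_prod]
            exact Finset.prod_le_prod (fun i _ => Nat.cast_nonneg _) fun i _ => card_hst _ _
    have hYcard : (Y.card : ℝ) ≤ R * B.card := by
      refine le_trans ?_ hcardtail
      have h1 : Y ⊆ (H.image fun h => (Fin.tail h.1, h.2)).image fun d => f d.1 + d.2 := by
        intro z hz
        obtain ⟨h, hh, rfl⟩ := Finset.mem_image.1 hz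
        exact Finset.mem_image.2 ⟨_, Finset.mem_image_of_mem _ hh, rfl⟩
      exact_mod_cast (Finset.card_le_card h1).trans Finset.card_image_le
    -- the first step
    obtain ⟨X₀, hX₀⟩ : ∃ X₀ : Finset ℤ, X₀ = (X 0).image fun x => l 0 * x := ⟨_, rfl⟩
    have hX₀c : (X₀.card : ℝ) ≤ (X 0).card := by
      rw [hX₀]
      exact_mod_cast Finset.card_image_le
    have hGh : ∀ g ∈ G, g.1 ∈ hst X₀ (P 0) ∧ g.2 ∈ Y := by
      intro g hg
      obtain ⟨h, hh, rfl⟩ := Finset.mem_image.1 hg
      refine ⟨?_, Finset.mem_image_of_mem _ hh⟩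
      obtain ⟨x, hx, s, hs, e⟩ := mem_hst.1 ((hHh h hh).1 0)
      refine mem_hst.2 ⟨l 0 * x, ?_, s, hs, ?_⟩
      · rw [hX₀]
        exact Finset.mem_image_of_mem _ hx
      · simp only [e]
        ring
    have hN1 : (X₀.card : ℝ) * 2 ^ (P 0).card * Y.card ≤ N := by
      refine le_trans ?_ hN
      calc (X₀.card : ℝ) * 2 ^ (P 0).card * Y.card ≤ V * (R * B.card) := by
            refine mul_le_mul ?_ hYcard (Nat.cast_nonneg _) hV0
            rw [hV]
            exact mul_le_mul_of_nonneg_right hX₀c (by positivity)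
        _ = _ := by ring
    have hstep := hst' X₀ (P 0) (hP2 0) (hPc 0) (hX₀c.trans (hXP 0)) Y G (hH.image _) hGh N hN1
    rw [hGcard] at hstep
    -- the image of `H'`
    have hH'card : ((G.image fun g => g.1 + g.2).card : ℝ) ≤ H'.card := by
      have h1 : (G.image fun g => g.1 + g.2) ⊆ H'.image fun d => f d.1 + d.2 := by
        intro z hz
        obtain ⟨g, hg, rfl⟩ := Finset.mem_image.1 hz
        obtain ⟨h, hh, rfl⟩ := Finset.mem_image.1 hg
        refine Finset.mem_image.2 ⟨_, Finset.mem_image_of_mem _ hh, ?_⟩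
        simp only
        ring
      exact_mod_cast (Finset.card_le_card h1).trans Finset.card_image_le
    have hHN : (H.card : ℝ) ≤ N := by
      have h2 : (H.card : ℝ) ≤ ((X₀.card : ℝ) * 2 ^ (P 0).card) * Y.card := by
        have h3 : G ⊆ hst X₀ (P 0) ×ˢ Y := fun g hg => Finset.mem_product.2 (hGh g hg)
        have h4 := Finset.card_le_card h3
        rw [Finset.card_product, hGcard] at h4
        calc (H.card : ℝ) ≤ ((hst X₀ (P 0)).card : ℝ) * Y.card := by exact_mod_cast h4
          _ ≤ _ := mul_le_mul_of_nonneg_right (card_hst _ _) (Nat.cast_nonneg _)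
      exact h2.trans hN1
    have hH1 : (1 : ℝ) ≤ H.card := by exact_mod_cast hH.card_pos
    have hN1' : 1 ≤ N := hH1.trans hHN
    have hN0 : 0 < N := by linarith
    have hrec := hk (fun i => X i.succ) (fun i => P i.succ) (fun i => l i.succ)
      (fun i => hP2 _) (fun i => hPc _) (fun i => hXP _) (fun i => hl _) B' H' (hH.image _) (by
        intro d hd
        obtain ⟨h, hh, rfl⟩ := Finset.mem_image.1 hd
        exact ⟨fun i => (hHh h hh).1 i.succ, Finset.mem_image_of_mem _ hh⟩) N (by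
        rw [← hR]
        have h1 : (B'.card : ℝ) ≤ V * B.card := by
          have h2 : B' ⊆ (hst (X 0) (P 0) ×ˢ B).image fun z => l 0 * z.1 + z.2 := by
            intro z hz
            obtain ⟨h, hh, rfl⟩ := Finset.mem_image.1 hz
            exact Finset.mem_image.2 ⟨(h.1 0, h.2),
              Finset.mem_product.2 ⟨(hHh h hh).1 0, (hHh h hh).2⟩, rfl⟩
          have h3 := (Finset.card_le_card h2).trans Finset.card_image_le
          rw [Finset.card_product] at h3
          calc (B'.card : ℝ) ≤ ((hst (X 0) (P 0)).card : ℝ) * B.card := by exact_mod_cast h3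
            _ ≤ _ := by
                rw [hV]
                exact mul_le_mul_of_nonneg_right (card_hst _ _) (Nat.cast_nonneg _)
        refine le_trans ?_ hN
        calc (B'.card : ℝ) * R ≤ (V * B.card) * R := mul_le_mul_of_nonneg_right h1 hR0
          _ = _ := by ring)
    have himg : (H'.image fun d => (∑ i : Fin k, l i.succ * d.1 i) + d.2) =
        H.image fun h => (∑ i, l i * h.1 i) + h.2 := by
      rw [hH', Finset.image_image]
      refine Finset.image_congr fun h _ => ?_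
      simp only [Function.comp, Fin.sum_univ_succ, Fin.tail]
      ring
    rw [himg] at hrec
    refine le_trans ?_ hrec
    -- the numbers
    have hr0 : 0 ≤ (H.card : ℝ) / N := by positivity
    have h1 : c' * N ^ (-(ε / (2 * C))) * ((H.card : ℝ) / N) ^ C' ≤ (H'.card : ℝ) / N := by
      rw [le_div_iff₀ hN0]
      refine le_trans (le_of_eq ?_) (hstep.trans hH'card)
      rw [sub_eq_add_neg, Real.rpow_add hN0, Real.rpow_one]
      ring
    have h2 : (c' * N ^ (-(ε / (2 * C))) * ((H.card : ℝ) / N) ^ C') ^ C ≤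
        ((H'.card : ℝ) / N) ^ C := Real.rpow_le_rpow (by positivity) h1 hC0.le
    have h3 : (c' * N ^ (-(ε / (2 * C))) * ((H.card : ℝ) / N) ^ C') ^ C =
        c' ^ C * N ^ (-(ε / 2)) * ((H.card : ℝ) / N) ^ (C * C') := by
      rw [Real.mul_rpow (by positivity) (by positivity), Real.mul_rpow hc'.le (by positivity),
        ← Real.rpow_mul hN0.le, ← Real.rpow_mul hr0]
      congr 2
      · congr 1
        field_simp
      · ring
    rw [h3] at h2
    calc c * c' ^ C * N ^ (1 - ε) * (H.card / N) ^ (C * C') =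
          c * N ^ (1 - ε / 2) * (c' ^ C * N ^ (-(ε / 2)) * ((H.card : ℝ) / N) ^ (C * C')) := by
          have h4 : N ^ (1 - ε) = N ^ (1 - ε / 2) * N ^ (-(ε / 2)) := by
            rw [← Real.rpow_add hN0]
            congr 1
            ring
          rw [h4]
          ring
      _ ≤ _ := mul_le_mul_of_nonneg_left h2 (by positivity)

end Pool.Agent.Run7.h386.PW
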