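import Pool.Agent.Run7.h386.DL.EnergyA

/-!
# Interface PW: projections of arbitrary planar sets in the directions of a multiplicative cube

For pairwise coprime integers `P` (structure `DL.Ad`), `mul P` is the set of the products of the
subsets of `P`. For a finite `W ⊂ ℤ²`, `NE α t W = ∑_{y ∈ W} (number of the y' ∈ W with the same value of
t y.1 + y.2) ^ α` (file `DE/Energy`, all the lemmas `NE_...` there are for general `W`). The aim is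
`S_ENE`; for product sets `W = X × B` it is `DL.energyA` (files `DL/StepA`, `DL/EnergyA`, `DE/Step`).
-/

set_option autoImplicit false

namespace Pool.Agent.Run7.h386.PW

open Finset Pool.Agent.Run7.h386.DE Pool.Agent.Run7.h386.DL
open scoped Classical

/-- the sum of the energies of `W` for the slopes `u t`, `t ∈ T` -/
noncomputable def TW (α : ℝ) (T : Finset ℕ) (u : ℤ) (W : Finset (ℤ × ℤ)) : ℝ :=
  ∑ t ∈ T, NE α (u * (t : ℤ)) W

/-- the induction hypothesis -/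
def IHypW (α δ K : ℝ) (T : Finset ℕ) (M : ℝ) : Prop :=
  ∀ V : Finset (ℤ × ℤ), V.Nonempty → (V.card : ℝ) ≤ M →
    TW α T 1 V ≤ T.card * (V.card : ℝ) ^ (1 + α * δ) * K

/-- piece USE: the dilated form of the induction hypothesis (cf. `DE.IHyp.use`, `DE.NE_mul`) -/
def S_USE : Prop := ∀ (α δ K M : ℝ) (T : Finset ℕ), IHypW α δ K T M → 0 ≤ α → 0 ≤ δ → 0 ≤ K →
  ∀ u : ℤ, u ≠ 0 → ∀ (V : Finset (ℤ × ℤ)) (m : ℝ), 0 ≤ m → (V.card : ℝ) ≤ m → m ≤ M →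
    TW α T u V ≤ T.card * K * m ^ (α * δ) * V.card

/-- piece GAL: gain from a label (cf. `DE.gain_right`): the value `u t x + b` and the representative
`rep w` (one of at most `C`) determine the label, and the sets of equal label are small -/
def S_GAL : Prop := ∀ (α δ K M : ℝ) (T : Finset ℕ), IHypW α δ K T M → 0 ≤ α → 0 ≤ δ → 0 ≤ K →
  ∀ u : ℤ, u ≠ 0 → ∀ (W W' : Finset (ℤ × ℤ)), W' ⊆ W → (W.card : ℝ) ≤ M →
  ∀ (lab : ℤ × ℤ → ℕ × ℤ) (rep : ℤ × ℤ → ℤ × ℤ) (R : Finset (ℤ × ℤ)) (C A : ℕ), 1 ≤ A →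
    R.card ≤ C → (∀ w ∈ W', rep w ∈ R) →
    (∀ t ∈ T, ∀ w ∈ W', ∀ w' ∈ W', rep w = rep w' → ph (u * (t : ℤ)) w = ph (u * (t : ℤ)) w' →
      lab w = lab w') →
    (∀ w ∈ W', A * (W'.filter fun w' => lab w' = lab w).card ≤ W.card) →
    TW α T u W' ≤ (C : ℝ) ^ α * (A : ℝ) ^ (-(α * δ)) *
      (T.card * K * (W.card : ℝ) ^ (α * δ)) * W'.card

/-- piece GAG: gain from a label, generic case (cf. `DE.gain_gen`) -/
def S_GAG : Prop := ∀ (α δ K M : ℝ) (T : Finset ℕ), IHypW α δ K T M → 0 ≤ α → 0 ≤ δ → 0 ≤ K →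
  ∀ (W W' : Finset (ℤ × ℤ)), W' ⊆ W → (W.card : ℝ) ≤ M →
  ∀ (lab : ℤ × ℤ → ℕ × ℤ) (C A : ℕ), 1 ≤ A → 1 ≤ C → (W'.image lab).card ≤ C →
  ∀ S ⊆ T, (∀ t ∈ T, t ∉ S → ∀ w ∈ W', ∀ w' ∈ W', ph (t : ℤ) w = ph (t : ℤ) w' →
      lab w = lab w') →
    (∀ w ∈ W', A * (W'.filter fun w' => lab w' = lab w).card ≤ W.card) →
    TW α T 1 W' ≤ (A : ℝ) ^ (-(α * δ)) * (T.card * K * (W.card : ℝ) ^ (α * δ)) * W'.card +
      ((C : ℝ) ^ α - 1) * ∑ t ∈ S, NE α (t : ℤ) W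

/-- piece COM: adding the rest (cf. `DE.combine`; `NE_sum_le` with two parts) -/
def S_COM : Prop := ∀ (α δ K M : ℝ) (T : Finset ℕ), IHypW α δ K T M → 0 ≤ α → 0 ≤ δ → 0 ≤ K →
  ∀ u : ℤ, u ≠ 0 → ∀ (W W' : Finset (ℤ × ℤ)), W' ⊆ W → (W.card : ℝ) ≤ M →
  ∀ g err : ℝ, g ≤ 1 → 0 ≤ err → W.card ≤ 4 * W'.card →
    TW α T u W' ≤ g * (T.card * K * (W.card : ℝ) ^ (α * δ)) * W'.card + err →
    TW α T u W ≤ 3 ^ α * ((1 - (1 - g) / 8) * (T.card * K * (W.card : ℝ) ^ (α * δ)) * W.card + err)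

/-- the class of `w` modulo `Q` for the coordinate `f` -/
noncomputable def cls (W : Finset (ℤ × ℤ)) (f : ℤ × ℤ → ℤ) (Q : ℤ) (w : ℤ × ℤ) : Finset (ℤ × ℤ) :=
  W.filter fun w' => Q ∣ f w' - f w

/-- the last level `j ≤ J` at which the class of `w` modulo `q ^ j` is heavy (has more than `|W| / A`
elements) -/
noncomputable def lev (W : Finset (ℤ × ℤ)) (f : ℤ × ℤ → ℤ) (q J A : ℕ) (w : ℤ × ℤ) : ℕ :=
  Nat.findGreatest (fun j => W.card < A * (cls W f ((q : ℤ) ^ j) w).card) J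

/-- the label: the last heavy level and the residue at the next level -/
noncomputable def lab (W : Finset (ℤ × ℤ)) (f : ℤ × ℤ → ℤ) (q J A : ℕ) (w : ℤ × ℤ) : ℕ × ℤ :=
  (lev W f q J A w, f w % (q : ℤ) ^ (lev W f q J A w + 1))

/-- piece COV: the heavy classes are arranged on at most `A` branches. (Take a set `R ⊆ W` with this
property with as few elements as possible; the classes modulo `q ^ lev r` of the `r ∈ R` are disjoint:
otherwise one of two nested ones is superfluous, because a class `cls W f (q^j) w`, `j ≤ J`, which is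
heavy has `j ≤ lev w`; each of them has more than `|W| / A` elements.) -/
def S_COV : Prop := ∀ (W : Finset (ℤ × ℤ)) (f : ℤ × ℤ → ℤ) (q J A : ℕ), 2 ≤ A → W.Nonempty →
  ∃ (R : Finset (ℤ × ℤ)) (rep : ℤ × ℤ → ℤ × ℤ), R ⊆ W ∧ R.card ≤ A ∧
    ∀ w ∈ W, rep w ∈ R ∧ (q : ℤ) ^ (lev W f q J A w) ∣ f w - f (rep w)

/-- piece LAB: the sets of equal label are small; a sufficient condition for equality of labels -/
def S_LAB : Prop := ∀ (W : Finset (ℤ × ℤ)) (f : ℤ × ℤ → ℤ) (q J A : ℕ), 2 ≤ A → 1 ≤ q →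
  (∀ w ∈ W, lev W f q J A w < J →
    A * (W.filter fun w' => lab W f q J A w' = lab W f q J A w).card ≤ W.card) ∧
  (∀ w ∈ W, ∀ w' ∈ W, lev W f q J A w < J →
    (q : ℤ) ^ (lev W f q J A w + 1) ∣ f w - f w' → lab W f q J A w = lab W f q J A w')

/-- piece DE1: for slopes divisible by `q ^ a` the value and the branch of the first coordinate
determine the label of the second one, if this is light before the level `lev + a` -/
def S_DE1 : Prop := ∀ (W : Finset (ℤ × ℤ)) (q a J A₀ AB : ℕ), 1 ≤ q → 2 ≤ A₀ → 2 ≤ AB →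
  ∀ (s : ℤ), (q : ℤ) ^ a ∣ s → ∀ w ∈ W, ∀ w' ∈ W, ∀ r : ℤ × ℤ,
    (q : ℤ) ^ (lev W Prod.fst q J A₀ w) ∣ w.1 - r.1 →
    (q : ℤ) ^ (lev W Prod.fst q J A₀ w') ∣ w'.1 - r.1 →
    lev W Prod.snd q J AB w < J → lev W Prod.snd q J AB w' < J →
    lev W Prod.snd q J AB w < lev W Prod.fst q J A₀ w + a →
    lev W Prod.snd q J AB w' < lev W Prod.fst q J A₀ w' + a →
    ph s w = ph s w' → lab W Prod.snd q J AB w = lab W Prod.snd q J AB w'

/-- piece DE2: for slopes prime to `q` the value and the branch of the second coordinate determine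
the label of the first one, if this is light before the last heavy level of the second -/
def S_DE2 : Prop := ∀ (W : Finset (ℤ × ℤ)) (q J AX AB : ℕ), q.Prime → 2 ≤ AX → 2 ≤ AB →
  ∀ (s : ℤ), ¬ (q : ℤ) ∣ s → ∀ w ∈ W, ∀ w' ∈ W, ∀ r : ℤ × ℤ,
    (q : ℤ) ^ (lev W Prod.snd q J AB w) ∣ w.2 - r.2 →
    (q : ℤ) ^ (lev W Prod.snd q J AB w') ∣ w'.2 - r.2 →
    lev W Prod.fst q J AX w < J → lev W Prod.fst q J AX w' < J →
    lev W Prod.fst q J AX w < lev W Prod.snd q J AB w →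
    lev W Prod.fst q J AX w' < lev W Prod.snd q J AB w' →
    ph s w = ph s w' → lab W Prod.fst q J AX w = lab W Prod.fst q J AX w'

/-- the bad multipliers for two sets of branches -/
noncomputable def badW (T : Finset ℕ) (q a : ℕ) (R R' : Finset (ℤ × ℤ)) : Finset ℕ :=
  T.filter fun t => ∃ r ∈ R, ∃ r₁ ∈ R, ∃ s ∈ R', ∃ s₁ ∈ R', ∃ i : ℕ,
    ¬ (q : ℤ) ^ (i + 1) ∣ r.1 - r₁.1 ∧
    (q : ℤ) ^ (i + a) ∣ (t : ℤ) * (r.1 - r₁.1) + (s.2 - s₁.2)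

/-- piece DE3: for the other multipliers the value determines the label of the first coordinate
(threshold `A₀`), if both coordinates are heavy (thresholds `AX`, `AB`) at the level `lev + a`;
in this set there are at most `|R|` labels -/
def S_DE3 : Prop := ∀ (W : Finset (ℤ × ℤ)) (q a J A₀ AX AB : ℕ), q.Prime → 1 ≤ a → 2 ≤ A₀ →
  ∀ (R R' : Finset (ℤ × ℤ)) (rep rep' : ℤ × ℤ → ℤ × ℤ),
    (∀ w ∈ W, rep w ∈ R ∧ (q : ℤ) ^ (lev W Prod.fst q J AX w) ∣ w.1 - (rep w).1) →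
    (∀ w ∈ W, rep' w ∈ R' ∧ (q : ℤ) ^ (lev W Prod.snd q J AB w) ∣ w.2 - (rep' w).2) →
    ∀ W' ⊆ W, (∀ w ∈ W', lev W Prod.fst q J A₀ w < J ∧
      lev W Prod.fst q J A₀ w + a ≤ lev W Prod.fst q J AX w ∧
      lev W Prod.fst q J A₀ w + a ≤ lev W Prod.snd q J AB w) →
    (∀ T : Finset ℕ, ∀ t ∈ T, t ∉ badW T q a R R' → ∀ w ∈ W', ∀ w' ∈ W',
      ph (t : ℤ) w = ph (t : ℤ) w' → lab W Prod.fst q J A₀ w = lab W Prod.fst q J A₀ w') ∧
    (W'.image (lab W Prod.fst q J A₀)).card ≤ R.card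

/-- piece BAD: the energy of the bad multipliers (cf. `DL.bad_leA`, `DL.pow_dvd_aux`,
`DE.sum_le_cover`): for given `r, r₁, s, s₁` they are in one class modulo `q ^ a` -/
def S_BAD : Prop := ∀ (α : ℝ) (W : Finset (ℤ × ℤ)) (T : Finset ℕ) (q a : ℕ)
  (R R' : Finset (ℤ × ℤ)) (E : ℝ), q.Prime → 0 ≤ E →
  (∀ S ⊆ T, (∀ t ∈ S, ∀ t' ∈ S, (q : ℤ) ^ a ∣ (t : ℤ) - t') → ∑ t ∈ S, NE α (t : ℤ) W ≤ E) →
  ∑ t ∈ badW T q a R R', NE α (t : ℤ) W ≤ ((R.card : ℝ) * R'.card) ^ 2 * E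

/-- piece STP: the step (cf. `DL.stepA`). `J` is large (congruence modulo `q ^ (J - a)` of the first
coordinates of elements of `W` implies equality). Cases for `w ∈ W`: (0) `lev fst A₀ w ≥ J - a`: at most
`A₀` first coordinates, so `rp ≤ A₀` and `NE ≤ A₀ ^ α |W'|`, gain `k1` because of `AB ≤ |W|`; otherwise
with `i = lev fst A₀ w`: (1) `lev snd AB w < i + a`: `S_DE1`, gain `k1` for the slopes `m t`;
(2) `lev snd AB w ≥ i + a > lev fst AX w`: `S_DE2`, gain `k2`; (3) the rest: `S_DE3`, `S_BAD`, gain `k3`.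
One of the four parts has at least `|W| / 4` elements. (`2 ≤ AX` follows from `Cn.g2`.) -/
def S_STP : Prop := ∀ (α δ c β K : ℝ) (A₀ AB AX : ℕ), Cn α δ c β 1 A₀ AB AX → 0 < α → 0 < δ →
  0 ≤ c → 0 ≤ β → 1 ≤ K → A₀ ≤ AB → ∀ m q a : ℕ, q.Prime → 1 ≤ a → q ^ a ∣ m → m ≠ 0 →
  ∀ T : Finset ℕ, (∀ t ∈ T, ¬ q ∣ t) → ∀ W : Finset (ℤ × ℤ), AB ≤ W.card →
  IHypW α δ K T W.card →
  (∀ S ⊆ T, (∀ t ∈ S, ∀ t' ∈ S, (q : ℤ) ^ a ∣ (t : ℤ) - t') →
      ∑ t ∈ S, NE α (t : ℤ) W ≤ β * (TW α T 1 W + TW α T m W)) →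
    TW α T 1 W + TW α T m W ≤ T.card * (W.card : ℝ) ^ (1 + α * δ) * K * (2 * (1 - c * α))

/-- piece IND: the energy theorem from the step (cf. `DL.induction_stepA`, `DL.energyA`, nearly
verbatim with `W` in place of `X ×ˢ B`; for the constants `DE.exists_cn`) -/
def S_ENE : Prop := ∀ δ θ : ℝ, 0 < δ → 0 < θ →
  ∃ α : ℝ, 0 < α ∧ α ≤ 1 ∧ ∃ C : ℝ, 1 ≤ C ∧ ∀ P : Finset ℕ, Ad P →
    ∀ W : Finset (ℤ × ℤ), W.Nonempty → θ * Real.log W.card ≤ P.card →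
      ∑ t ∈ mul P, NE α (t : ℤ) W ≤ C * (mul P).card * (W.card : ℝ) ^ (1 + α * δ)

/-- piece RES: projections (Markov's and Hölder's inequality, `DE.NE_holder`, `DE.NE_mono`): outside
of few subsets `s` of `P` all subsets `W'` of `W` which are not too small have large projections -/
def S_RES : Prop := ∀ (T ε : ℝ), 0 ≤ T → 0 < ε →
  ∃ η c : ℝ, 0 < η ∧ 0 < c ∧ ∀ P : Finset ℕ, (∀ p ∈ P, 2 ≤ p) →
    (∀ p ∈ P, ∀ p' ∈ P, p ≠ p' → Nat.Coprime p p') →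
    ∀ W : Finset (ℤ × ℤ), W.Nonempty → (W.card : ℝ) ≤ 2 ^ (T * P.card) →
    ∃ 𝒮 ⊆ P.powerset, (𝒮.card : ℝ) ≤ (W.card : ℝ) ^ (-η) * 2 ^ P.card ∧
      ∀ s ∈ P.powerset, s ∉ 𝒮 → ∀ W' ⊆ W, (W.card : ℝ) ^ (1 - η) ≤ W'.card →
        c * (W.card : ℝ) ^ (1 - ε) ≤
          ((W'.image fun w => ((∏ p ∈ s, p : ℕ) : ℤ) * w.1 + w.2).card : ℝ)

/-- the pieces: `t_USE : S_USE`, `t_GAL : S_USE → S_GAL`, `t_GAG : S_USE → S_GAG`,
`t_COM : S_USE → S_COM`, `t_COV : S_COV`, `t_LAB : S_LAB`, `t_DE1 : S_LAB → S_DE1`,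
`t_DE2 : S_LAB → S_DE2`, `t_DE3 : S_LAB → S_DE3`, `t_BAD : S_BAD`,
`t_STP : S_USE → S_GAL → S_GAG → S_COM → S_COV → S_LAB → S_DE1 → S_DE2 → S_DE3 → S_BAD → S_STP`,
`t_IND : S_STP → S_ENE`, `t_RES : S_ENE → S_RES` -/
theorem main (h1 : S_USE) (h2 : S_USE → S_GAL) (h3 : S_USE → S_GAG) (h4 : S_USE → S_COM)
    (h5 : S_COV) (h6 : S_LAB) (h7 : S_LAB → S_DE1) (h8 : S_LAB → S_DE2) (h9 : S_LAB → S_DE3)
    (h10 : S_BAD)
    (h11 : S_USE → S_GAL → S_GAG → S_COM → S_COV → S_LAB → S_DE1 → S_DE2 → S_DE3 → S_BAD → S_STP)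
    (h12 : S_STP → S_ENE) (h13 : S_ENE → S_RES) : S_RES :=
  h13 (h12 (h11 h1 (h2 h1) (h3 h1) (h4 h1) h5 h6 (h7 h6) (h8 h6) (h9 h6) h10))

end Pool.Agent.Run7.h386.PW
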