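import Pool.Agent.Run7.h386.PW.STP
import Pool.Agent.Run7.h379.PW.USE
import Pool.Agent.Run7.h379.PW.BAD
import Pool.Agent.Run7.h886.PW.COM
import Pool.Agent.Run7.h886.PW.GAL
import Pool.Agent.Run7.h270.PW.COV
import Pool.Agent.Run7.h216.PW.DE
import Pool.Agent.Run7.h975.PW.GAG
import Pool.Agent.Run7.h975.PW.IND

/-! Assembly: all subsets of power density close to `1` of a finite planar set have large projections
for most products of subsets of a set of pairwise coprime integers. -/

set_option autoImplicit false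

namespace Pool.Agent.Run7.h386.PW

theorem res : S_RES :=
  main Pool.Agent.Run7.h379.PW.t_USE Pool.Agent.Run7.h886.PW.t_GAL Pool.Agent.Run7.h975.PW.t_GAG
    Pool.Agent.Run7.h886.PW.t_COM Pool.Agent.Run7.h270.PW.t_COV Pool.Agent.Run7.h270.PW.t_LAB
    Pool.Agent.Run7.h216.PW.t_DE1 Pool.Agent.Run7.h216.PW.t_DE2 Pool.Agent.Run7.h216.PW.t_DE3
    Pool.Agent.Run7.h379.PW.t_BAD t_STP Pool.Agent.Run7.h975.PW.t_IND
    Pool.Agent.Run7.h270.PW.t_RES

end Pool.Agent.Run7.h386.PW
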