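import Pool.Agent.Run7.h386.PW.Iface

/-!
Piece STP of the interface PW: the induction step for arbitrary planar sets.
-/

set_option autoImplicit false

namespace Pool.Agent.Run7.h386.PW

open Finset Pool.Agent.Run7.h386.DE Pool.Agent.Run7.h386.DL
open scoped Classical

lemma exists_level (q : ℕ) (hq : 2 ≤ q) (W : Finset (ℤ × ℤ)) : ∃ J : ℕ, ∀ w ∈ W, ∀ w' ∈ W,
    (q : ℤ) ^ J ∣ w.1 - w'.1 → w.1 = w'.1 := by
  refine ⟨∑ w ∈ W, ∑ w' ∈ W, (w.1 - w'.1).natAbs, ?_⟩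
  intro w hw w' hw' h
  by_contra hne
  have h0 : w.1 - w'.1 ≠ 0 := sub_ne_zero.2 hne
  have h1 : (w.1 - w'.1).natAbs ≤ ∑ w ∈ W, ∑ w' ∈ W, (w.1 - w'.1).natAbs := by
    refine le_trans ?_ (Finset.single_le_sum (f := fun w => ∑ w' ∈ W, (w.1 - w'.1).natAbs)
      (fun _ _ => Nat.zero_le _) hw)
    exact Finset.single_le_sum (f := fun w' : ℤ × ℤ => (w.1 - w'.1).natAbs)
      (fun _ _ => Nat.zero_le _) hw'
  obtain ⟨J, hJ⟩ : ∃ J : ℕ, J = ∑ w ∈ W, ∑ w' ∈ W, (w.1 - w'.1).natAbs := ⟨_, rfl⟩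
  rw [← hJ] at h h1
  have h2 : q ^ J ∣ (w.1 - w'.1).natAbs := by
    have := Int.natAbs_dvd_natAbs.2 h
    rwa [Int.natAbs_pow, Int.natAbs_natCast] at this
  have h3 : q ^ J ≤ (w.1 - w'.1).natAbs :=
    Nat.le_of_dvd (Int.natAbs_pos.2 h0) h2
  have h4 : J < q ^ J := Nat.lt_pow_self (by omega)
  omega

theorem t_STP : S_USE → S_GAL → S_GAG → S_COM → S_COV → S_LAB → S_DE1 → S_DE2 → S_DE3 → S_BAD →
    S_STP := by
  intro hUSE hGAL hGAG hCOM hCOV hLAB hDE1 hDE2 hDE3 hBAD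
  intro α δ c β K A₀ AB AX hc hα hδ hcc hβ hK hAA m q a hq ha hqm hm T hT W hW IH hgen
  have hA0 : 2 ≤ A₀ := hc.A0
  have hAB2 : 2 ≤ AB := hA0.trans hAA
  have hq1 : 1 ≤ q := hq.one_le
  have hAX2 : 2 ≤ AX := by
    by_contra hcon
    have h1 : AX = 1 := by have := hc.AX1; omega
    have h2 := hc.g2
    rw [h1] at h2
    simp only [Nat.cast_one, Real.one_rpow, mul_one] at h2
    have h3 : (1 : ℝ) < (AB : ℝ) ^ α := Real.one_lt_rpow (by exact_mod_cast hAB2) hα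
    linarith
  have hK0 : 0 ≤ K := by linarith
  have hWn : W.Nonempty := Finset.card_pos.1 (by omega)
  obtain ⟨n, hn⟩ : ∃ n : ℝ, n = (W.card : ℝ) := ⟨_, rfl⟩
  have hn0 : 0 < n := by rw [hn]; exact_mod_cast hWn.card_pos
  have hnAB : (AB : ℝ) ≤ n := by rw [hn]; exact_mod_cast hW
  have hm0 : (m : ℤ) ≠ 0 := by exact_mod_cast hm
  obtain ⟨N, hN⟩ : ∃ N : ℝ, N = T.card * K * n ^ (α * δ) := ⟨_, rfl⟩
  have hN0 : 0 ≤ N := by rw [hN]; positivity
  have hNe : T.card * n ^ (1 + α * δ) * K * (2 * (1 - c * α)) = N * n * (2 * (1 - c * α)) := by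
    rw [Real.rpow_add hn0, Real.rpow_one, hN]; ring
  have hE1 : TW α T m W ≤ N * n := by
    have := hUSE α δ K W.card T IH hα.le hδ.le hK0 m hm0 W W.card (Nat.cast_nonneg _) le_rfl le_rfl
    rw [← hn, ← hN] at this
    exact this
  have hE2 : TW α T 1 W ≤ N * n := by
    have := hUSE α δ K W.card T IH hα.le hδ.le hK0 1 one_ne_zero W W.card (Nat.cast_nonneg _)
      le_rfl le_rfl
    rw [← hn, ← hN] at this
    exact this
  rw [← hn, hNe]
  obtain ⟨κ, hκ⟩ : ∃ κ : ℝ, κ = ((1 : ℕ) + 1) * c * α := ⟨_, rfl⟩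
  have hκe : κ = 2 * (c * α) := by rw [hκ]; push_cast; ring
  have hNn : 0 ≤ N * n := mul_nonneg hN0 hn0.le
  -- it is enough to have a gain for one of the two sums
  suffices hgain : TW α T 1 W ≤ N * n * (1 - κ) ∨ TW α T m W ≤ N * n * (1 - κ) by
    rw [hκe] at hgain
    rcases hgain with h | h <;> linarith
  obtain ⟨J₀, hJ₀⟩ := exists_level q hq.two_le W
  obtain ⟨J, hJ⟩ : ∃ J : ℕ, J = J₀ + a := ⟨_, rfl⟩
  set W0 := W.filter fun w => J₀ ≤ lev W Prod.fst q J A₀ w with hW0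
  set W1 := W.filter fun w => lev W Prod.fst q J A₀ w < J₀ ∧
    lev W Prod.snd q J AB w < lev W Prod.fst q J A₀ w + a with hW1
  set W2 := W.filter fun w => lev W Prod.fst q J A₀ w < J₀ ∧
    lev W Prod.fst q J A₀ w + a ≤ lev W Prod.snd q J AB w ∧
    lev W Prod.fst q J AX w < lev W Prod.fst q J A₀ w + a with hW2
  set W3 := W.filter fun w => lev W Prod.fst q J A₀ w < J₀ ∧
    lev W Prod.fst q J A₀ w + a ≤ lev W Prod.snd q J AB w ∧
    lev W Prod.fst q J A₀ w + a ≤ lev W Prod.fst q J AX w with hW3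
  have hcover : W ⊆ W0 ∪ (W1 ∪ (W2 ∪ W3)) := by
    intro w hw
    simp only [hW0, hW1, hW2, hW3, Finset.mem_union, Finset.mem_filter, hw, true_and]
    omega
  have hcard : W.card ≤ W0.card + (W1.card + (W2.card + W3.card)) := by
    refine (Finset.card_le_card hcover).trans ((Finset.card_union_le _ _).trans ?_)
    refine Nat.add_le_add_left ((Finset.card_union_le _ _).trans ?_) _
    exact Nat.add_le_add_left (Finset.card_union_le _ _) _
  -- the end of the proof in the cases without an error term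
  have fin : ∀ (u : ℤ) (g : ℝ) (W' : Finset (ℤ × ℤ)), u ≠ 0 → W' ⊆ W → W.card ≤ 4 * W'.card →
      g ≤ 1 → 3 ^ α * (1 - (1 - g) / 8) ≤ 1 - κ → TW α T u W' ≤ g * N * W'.card →
      TW α T u W ≤ N * n * (1 - κ) := by
    intro u g W' hu hW' h4 hg hk h
    have h2 := hCOM α δ K W.card T IH hα.le hδ.le hK0 u hu W W' hW' le_rfl g 0 hg le_rfl h4 (by
      rw [add_zero, ← hn, ← hN]; exact h)
    rw [← hn, ← hN, add_zero] at h2
    refine h2.trans ?_
    have h3 := mul_le_mul_of_nonneg_right hk hNn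
    calc _ = 3 ^ α * (1 - (1 - g) / 8) * (N * n) := by ring
      _ ≤ _ := h3
      _ = _ := by ring
  have hk1 : 3 ^ α * (1 - (1 - (A₀ : ℝ) ^ α * (AB : ℝ) ^ (-(α * δ))) / 8) ≤ 1 - κ := by
    rw [hκ]; exact hc.k1
  have hk2 : 3 ^ α * (1 - (1 - (AB : ℝ) ^ α * (AX : ℝ) ^ (-(α * δ))) / 8) ≤ 1 - κ := by
    rw [hκ]; exact hc.k2
  obtain ⟨R₀, rep₀, hR₀W, hR₀c, hrep₀⟩ := hCOV W Prod.fst q J A₀ hA0 hWn
  obtain ⟨RX, repX, hRXW, hRXc, hrepX⟩ := hCOV W Prod.fst q J AX hAX2 hWn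
  obtain ⟨RB, repB, hRBW, hRBc, hrepB⟩ := hCOV W Prod.snd q J AB hAB2 hWn
  rcases (by omega : W.card ≤ 4 * W0.card ∨ W.card ≤ 4 * W1.card ∨ W.card ≤ 4 * W2.card ∨
    W.card ≤ 4 * W3.card) with h4 | h4 | h4 | h4
  · -- few first coordinates
    left
    refine fin 1 ((A₀ : ℝ) ^ α * (AB : ℝ) ^ (-(α * δ))) W0 one_ne_zero (Finset.filter_subset _ _)
      h4 hc.g1 hk1 ?_
    have h1 : ∀ t ∈ T, NE α (1 * (t : ℤ)) W0 ≤ W0.card * (A₀ : ℝ) ^ α := by
      intro t _
      refine NE_le hα.le fun z => ?_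
      have h2 : rp (1 * (t : ℤ)) W0 z ≤ R₀.card := by
        unfold rp
        refine Finset.card_le_card_of_injOn rep₀ ?_ ?_
        · intro y hy
          exact (hrep₀ y (Finset.mem_filter.1 (Finset.mem_filter.1 hy).1).1).1
        · intro y hy y' hy' h
          obtain ⟨hy1, hy2⟩ := Finset.mem_filter.1 hy
          obtain ⟨hy1', hy2'⟩ := Finset.mem_filter.1 hy'
          obtain ⟨hyW, hyl⟩ := Finset.mem_filter.1 hy1
          obtain ⟨hyW', hyl'⟩ := Finset.mem_filter.1 hy1'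
          have h3 : (q : ℤ) ^ J₀ ∣ y.1 - y'.1 := by
            have e1 := (pow_dvd_pow (q : ℤ) hyl).trans (hrep₀ y hyW).2
            have e2 := (pow_dvd_pow (q : ℤ) hyl').trans (hrep₀ y' hyW').2
            rw [← h] at e2
            have := dvd_sub e1 e2
            have e3 : y.1 - (rep₀ y).1 - (y'.1 - (rep₀ y).1) = y.1 - y'.1 := by ring
            rwa [e3] at this
          have h5 := hJ₀ y hyW y' hyW' h3
          unfold ph at hy2 hy2'
          refine Prod.ext h5 ?_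
          rw [h5] at hy2
          linarith
      exact_mod_cast h2.trans hR₀c
    have h2 : TW α T 1 W0 ≤ T.card * (W0.card * (A₀ : ℝ) ^ α) := by
      unfold TW
      rw [← nsmul_eq_mul, ← Finset.sum_const]
      exact Finset.sum_le_sum h1
    refine h2.trans ?_
    have h3 : 1 ≤ (AB : ℝ) ^ (-(α * δ)) * n ^ (α * δ) := by
      have hABp : (0 : ℝ) < AB := by exact_mod_cast (by omega : 0 < AB)
      rw [Real.rpow_neg hABp.le, inv_mul_eq_div, one_le_div (Real.rpow_pos_of_pos hABp _)]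
      exact Real.rpow_le_rpow hABp.le hnAB (by positivity)
    have h5 : (0 : ℝ) ≤ T.card * (W0.card * (A₀ : ℝ) ^ α) := by positivity
    have h6 : 1 ≤ K * ((AB : ℝ) ^ (-(α * δ)) * n ^ (α * δ)) := by nlinarith
    calc T.card * (W0.card * (A₀ : ℝ) ^ α) = T.card * (W0.card * (A₀ : ℝ) ^ α) * 1 := by ring
      _ ≤ T.card * (W0.card * (A₀ : ℝ) ^ α) * (K * ((AB : ℝ) ^ (-(α * δ)) * n ^ (α * δ))) :=
          mul_le_mul_of_nonneg_left h6 h5
      _ = _ := by rw [hN]; ring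
  · -- the second coordinate is spread
    right
    refine fin m ((A₀ : ℝ) ^ α * (AB : ℝ) ^ (-(α * δ))) W1 hm0 (Finset.filter_subset _ _)
      h4 hc.g1 hk1 ?_
    have h1 := hGAL α δ K W.card T IH hα.le hδ.le hK0 m hm0 W W1 (Finset.filter_subset _ _) le_rfl
      (lab W Prod.snd q J AB) rep₀ R₀ A₀ AB (by omega) hR₀c
      (fun w hw => (hrep₀ w (Finset.mem_filter.1 hw).1).1) (by
        intro t ht w hw w' hw' hr hph
        obtain ⟨hwW, hw1, hw2⟩ := Finset.mem_filter.1 hw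
        obtain ⟨hwW', hw1', hw2'⟩ := Finset.mem_filter.1 hw'
        refine hDE1 W q a J A₀ AB hq1 hA0 hAB2 ((m : ℤ) * t) ?_ w hwW w' hwW' (rep₀ w)
          (hrep₀ w hwW).2 ?_ (by omega) (by omega) hw2 hw2' hph
        · exact Dvd.dvd.mul_right (by exact_mod_cast hqm) _
        · rw [hr]; exact (hrep₀ w' hwW').2) (by
        intro w hw
        obtain ⟨hwW, hw1, hw2⟩ := Finset.mem_filter.1 hw
        refine le_trans (Nat.mul_le_mul_left _ (Finset.card_le_card ?_))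
          ((hLAB W Prod.snd q J AB hAB2 hq1).1 w hwW (by omega))
        exact Finset.filter_subset_filter _ (Finset.filter_subset _ _))
    rw [← hn, ← hN] at h1
    exact h1
  · -- the first coordinate is spread
    left
    refine fin 1 ((AB : ℝ) ^ α * (AX : ℝ) ^ (-(α * δ))) W2 one_ne_zero (Finset.filter_subset _ _)
      h4 hc.g2 hk2 ?_
    have h1 := hGAL α δ K W.card T IH hα.le hδ.le hK0 1 one_ne_zero W W2
      (Finset.filter_subset _ _) le_rfl
      (lab W Prod.fst q J AX) repB RB AB AX (by omega) hRBc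
      (fun w hw => (hrepB w (Finset.mem_filter.1 hw).1).1) (by
        intro t ht w hw w' hw' hr hph
        obtain ⟨hwW, hw1, hw2, hw3⟩ := Finset.mem_filter.1 hw
        obtain ⟨hwW', hw1', hw2', hw3'⟩ := Finset.mem_filter.1 hw'
        refine hDE2 W q J AX AB hq hAX2 hAB2 (1 * (t : ℤ)) ?_ w hwW w' hwW' (repB w)
          (hrepB w hwW).2 ?_ (by omega) (by omega) (by omega) (by omega) hph
        · rw [one_mul]
          intro h
          exact hT t ht (Int.natCast_dvd_natCast.1 h)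
        · rw [hr]; exact (hrepB w' hwW').2) (by
        intro w hw
        obtain ⟨hwW, hw1, hw2, hw3⟩ := Finset.mem_filter.1 hw
        refine le_trans (Nat.mul_le_mul_left _ (Finset.card_le_card ?_))
          ((hLAB W Prod.fst q J AX hAX2 hq1).1 w hwW (by omega))
        exact Finset.filter_subset_filter _ (Finset.filter_subset _ _))
    rw [← hn, ← hN] at h1
    exact h1
  · -- the generic case
    left
    obtain ⟨Wt, hWt⟩ : ∃ Wt : ℝ, Wt = TW α T 1 W + TW α T m W := ⟨_, rfl⟩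
    have hTW0 : ∀ u : ℤ, 0 ≤ TW α T u W := fun u =>
      Finset.sum_nonneg fun _ _ => NE_nonneg _ _ _
    have hWt0 : 0 ≤ Wt := by rw [hWt]; exact add_nonneg (hTW0 _) (hTW0 _)
    have hWtle : Wt ≤ ((1 : ℕ) + 1) * (N * n) := by
      rw [hWt]; push_cast; linarith
    rw [← hWt] at hgen
    have hbad := hBAD α W T q a RX RB (β * Wt) hq (mul_nonneg hβ hWt0) hgen
    have hRR : ((RX.card : ℝ) * RB.card) ^ 2 ≤ ((AX : ℝ) * AB) ^ 2 := by
      have h1 : (RX.card : ℝ) * RB.card ≤ (AX : ℝ) * AB := by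
        have e1 : (RX.card : ℝ) ≤ AX := by exact_mod_cast hRXc
        have e2 : (RB.card : ℝ) ≤ AB := by exact_mod_cast hRBc
        exact mul_le_mul e1 e2 (Nat.cast_nonneg _) (Nat.cast_nonneg _)
      exact pow_le_pow_left₀ (by positivity) h1 2
    have hd3 := hDE3 W q a J A₀ AX AB hq ha hA0 RX RB repX repB hrepX hrepB W3
      (Finset.filter_subset _ _) (by
        intro w hw
        obtain ⟨hwW, hw1, hw2, hw3⟩ := Finset.mem_filter.1 hw
        exact ⟨by omega, hw3, hw2⟩)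
    have h1 := hGAG α δ K W.card T IH hα.le hδ.le hK0 W W3 (Finset.filter_subset _ _) le_rfl
      (lab W Prod.fst q J A₀) AX A₀ (by omega) hc.AX1 (hd3.2.trans hRXc) (badW T q a RX RB)
      (Finset.filter_subset _ _) (fun t ht htb w hw w' hw' h => hd3.1 T t ht htb w hw w' hw' h) (by
        intro w hw
        obtain ⟨hwW, hw1, hw2, hw3⟩ := Finset.mem_filter.1 hw
        refine le_trans (Nat.mul_le_mul_left _ (Finset.card_le_card ?_))
          ((hLAB W Prod.fst q J A₀ hA0 hq1).1 w hwW (by omega))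
        exact Finset.filter_subset_filter _ (Finset.filter_subset _ _))
    have hAXα : 0 ≤ (AX : ℝ) ^ α - 1 := by
      have := Real.one_le_rpow (x := (AX : ℝ)) (by exact_mod_cast hc.AX1) hα.le
      linarith
    have hbad2 : ∑ t ∈ badW T q a RX RB, NE α (t : ℤ) W ≤ ((AX : ℝ) * AB) ^ 2 * (β * Wt) :=
      hbad.trans (mul_le_mul_of_nonneg_right hRR (mul_nonneg hβ hWt0))
    have herr := mul_le_mul_of_nonneg_left hbad2 hAXα
    have h2 := hCOM α δ K W.card T IH hα.le hδ.le hK0 1 one_ne_zero W W3 (Finset.filter_subset _ _)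
      le_rfl ((A₀ : ℝ) ^ (-(α * δ))) (((AX : ℝ) ^ α - 1) * (((AX : ℝ) * AB) ^ 2 * (β * Wt)))
      hc.g3 (mul_nonneg hAXα (mul_nonneg (sq_nonneg _) (mul_nonneg hβ hWt0))) h4
      (h1.trans (add_le_add le_rfl herr))
    rw [← hn, ← hN] at h2
    refine h2.trans ?_
    have h3 := mul_le_mul_of_nonneg_right hc.k3 hNn
    rw [← hκ] at h3
    have h5 : ((AX : ℝ) ^ α - 1) * (((AX : ℝ) * AB) ^ 2 * (β * Wt)) ≤
        ((AX : ℝ) ^ α - 1) * (((AX : ℝ) * AB) ^ 2 * (β * (((1 : ℕ) : ℝ) + 1))) * (N * n) := by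
      have e1 : β * Wt ≤ β * ((((1 : ℕ) : ℝ) + 1) * (N * n)) :=
        mul_le_mul_of_nonneg_left hWtle hβ
      have e2 := mul_le_mul_of_nonneg_left e1 (sq_nonneg ((AX : ℝ) * AB))
      have e3 := mul_le_mul_of_nonneg_left e2 hAXα
      refine e3.trans (le_of_eq ?_)
      ring
    have h30 : (0 : ℝ) ≤ 3 ^ α := Real.rpow_nonneg (by norm_num) _
    calc _ ≤ 3 ^ α * ((1 - (1 - (A₀ : ℝ) ^ (-(α * δ))) / 8) * N * n +
          ((AX : ℝ) ^ α - 1) * (((AX : ℝ) * AB) ^ 2 * (β * (((1 : ℕ) : ℝ) + 1))) * (N * n)) :=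
          mul_le_mul_of_nonneg_left (add_le_add le_rfl h5) h30
      _ = 3 ^ α * (1 - (1 - (A₀ : ℝ) ^ (-(α * δ))) / 8 +
          ((AX : ℝ) ^ α - 1) * (((AX : ℝ) * AB) ^ 2 * (β * (((1 : ℕ) : ℝ) + 1)))) * (N * n) := by
          ring
      _ ≤ _ := h3
      _ = _ := by ring

end Pool.Agent.Run7.h386.PW
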